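import Pool.Agent.Helper21.LQ.Defs
import Pool.Agent.Helper15.LR.A1
import Pool.Agent.Helper15.LR.A2

set_option autoImplicit false

namespace Pool.Agent.Helper21.LQ

open Finset

theorem st_GAL : ST_GAL := by
  classical
  intro V _ _ G _ A k hA hdeg L hL
  let E : Finset (V × V) := univ.filter (fun p => G.Adj p.1 p.2 ∧ A p.1 = true ∧ A p.2 = false)
  have hE : ∀ p : V × V, p ∈ E ↔ G.Adj p.1 p.2 ∧ A p.1 = true ∧ A p.2 = false := by
    intro p
    simp [E]
  obtain ⟨r, s, hr, hs, hrs⟩ := Pool.Agent.Helper15.LR.A2 V V E
  have hd1 : ∀ e ∈ E, (E.filter (fun e' => e'.1 = e.1)).card ≤ k := by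
    intro e he
    refine le_trans ?_ (hdeg e.1)
    rw [← SimpleGraph.card_neighborFinset_eq_degree]
    apply Finset.card_le_card_of_injOn (fun e' => e'.2)
    · intro e' he'
      rw [Finset.mem_coe, mem_filter, hE] at he'
      rw [Finset.mem_coe, SimpleGraph.mem_neighborFinset, ← he'.2]
      exact he'.1.1
    · intro a ha b hb hab
      rw [Finset.mem_coe, mem_filter] at ha hb
      exact Prod.ext (ha.2.trans hb.2.symm) hab
  have hd2 : ∀ e ∈ E, (E.filter (fun e' => e'.2 = e.2)).card ≤ k := by
    intro e he
    refine le_trans ?_ (hdeg e.2)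
    rw [← SimpleGraph.card_neighborFinset_eq_degree]
    apply Finset.card_le_card_of_injOn (fun e' => e'.1)
    · intro e' he'
      rw [Finset.mem_coe, mem_filter, hE] at he'
      rw [Finset.mem_coe, SimpleGraph.mem_neighborFinset, ← he'.2]
      exact he'.1.1.symm
    · intro a ha b hb hab
      rw [Finset.mem_coe, mem_filter] at ha hb
      exact Prod.ext hab (ha.2.trans hb.2.symm)
  obtain ⟨f, hf1, hf2⟩ := Pool.Agent.Helper15.LR.A1 V V E r s (fun p => L s(p.1, p.2)) hr hs (by
    intro e he
    refine lt_of_lt_of_le (hrs e he) (max_le ?_ ?_)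
    · have h5 := (hd1 e he).trans (hL e.1 e.2 ((hE e).1 he).1)
      convert h5
    · have h5 := (hd2 e he).trans (hL e.1 e.2 ((hE e).1 he).1)
      convert h5)
  let c : Sym2 V → ℕ := fun z =>
    if h : ∃ p : V × V, s(p.1, p.2) = z ∧ A p.1 = true ∧ A p.2 = false then f h.choose else 0
  have hc : ∀ x y, A x = true → A y = false → c s(x, y) = f (x, y) := by
    intro x y hx hy
    have hex : ∃ p : V × V, s(p.1, p.2) = s(x, y) ∧ A p.1 = true ∧ A p.2 = false :=
      ⟨(x, y), rfl, hx, hy⟩
    simp only [c]
    rw [dif_pos hex]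
    obtain ⟨h1, h2, h3⟩ := hex.choose_spec
    have : hex.choose = (x, y) := by
      rw [Sym2.eq_iff] at h1
      rcases h1 with ⟨h4, h5⟩ | ⟨h4, h5⟩
      · exact Prod.ext h4 h5
      · rw [h4, hy] at h2
        exact absurd h2 (by simp)
    rw [this]
  refine ⟨c, ?_, ?_⟩
  · intro x y hxy
    have hne := hA x y hxy
    cases hx : A x with
    | true =>
      have hy : A y = false := by
        cases hy : A y with
        | true => exact absurd (hx.trans hy.symm) hne
        | false => rfl
      rw [hc x y hx hy]
      exact hf1 (x, y) ((hE _).2 ⟨hxy, hx, hy⟩)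
    | false =>
      have hy : A y = true := by
        cases hy : A y with
        | true => rfl
        | false => exact absurd (hx.trans hy.symm) hne
      rw [Sym2.eq_swap, hc y x hy hx]
      have := hf1 (y, x) ((hE _).2 ⟨hxy.symm, hy, hx⟩)
      exact this
  · intro x y z hxy hxz hyz
    have hne := hA x y hxy
    have hne' := hA x z hxz
    cases hx : A x with
    | true =>
      have hy : A y = false := by
        cases hy : A y with
        | true => exact absurd (hx.trans hy.symm) hne
        | false => rfl
      have hz : A z = false := by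
        cases hz : A z with
        | true => exact absurd (hx.trans hz.symm) hne'
        | false => rfl
      rw [hc x y hx hy, hc x z hx hz]
      refine hf2 (x, y) ((hE _).2 ⟨hxy, hx, hy⟩) (x, z) ((hE _).2 ⟨hxz, hx, hz⟩) ?_ (Or.inl rfl)
      intro h
      exact hyz (congrArg Prod.snd h)
    | false =>
      have hy : A y = true := by
        cases hy : A y with
        | true => rfl
        | false => exact absurd (hx.trans hy.symm) hne
      have hz : A z = true := by
        cases hz : A z with
        | true => rfl
        | false => exact absurd (hx.trans hz.symm) hne'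
      rw [Sym2.eq_swap (a := x) (b := y), Sym2.eq_swap (a := x) (b := z), hc y x hy hx,
        hc z x hz hx]
      refine hf2 (y, x) ((hE _).2 ⟨hxy.symm, hy, hx⟩) (z, x) ((hE _).2 ⟨hxz.symm, hz, hx⟩) ?_
        (Or.inr rfl)
      intro h
      exact hyz (congrArg Prod.fst h)

end Pool.Agent.Helper21.LQ
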