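import Pool.Agent.Helper21.LQ.Defs

set_option autoImplicit false

namespace Pool.Agent.Helper21.LQ

open Finset

/-- The numerical inequalities used below. -/
theorem pre_num (ε : ℝ) (h0 : 0 < ε) (h1 : ε ≤ 1) :
    999 / 1000 ≤ 1 - ε ^ 2 / 1024 - dl ε ∧
    1 ≤ (1 + ε / 4) * (1 - ε ^ 2 / 1024 - dl ε) ∧
    1 - ε ^ 2 / 64 + dl ε ≤ 1 - ε ^ 2 / 1024 - dl ε := by
  have e2 : ε ^ 2 ≤ ε := by nlinarith
  have e2' : 0 < ε ^ 2 := by positivity
  have e10 : ε ^ 10 ≤ ε ^ 2 := pow_le_pow_of_le_one h0.le h1 (by norm_num)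
  have hd : dl ε ≤ ε ^ 2 / 2 ^ 68 := by
    unfold dl
    exact div_le_div_of_nonneg_right e10 (by positivity)
  have hd' : dl ε ≤ ε ^ 2 / 100000 := by
    refine hd.trans ?_
    apply div_le_div_of_nonneg_left e2'.le (by norm_num) (by norm_num)
  have hq : 1 - ε ^ 2 / 1000 ≤ 1 - ε ^ 2 / 1024 - dl ε := by nlinarith
  refine ⟨by nlinarith, ?_, by nlinarith⟩
  have : 1 ≤ (1 + ε / 4) * (1 - ε ^ 2 / 1000) := by nlinarith
  refine this.trans (mul_le_mul_of_nonneg_left hq (by positivity))

theorem st_PRE (hPART : ST_PART) : ST_PRE := by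
  classical
  intro R Γ _ _ _ _ ε N D L L₀ X h0 h1 hND hL hbig hP hL₀ hL₀c hX hcol hsum
  obtain ⟨hPa, hPb, hPc⟩ := hP
  set F := Full ε N D L with hF
  have hP : IsP ε N D L := ⟨hPa, hPb, hPc⟩
  have hhe : hh ε N D L = N.card - F.card := by
    unfold hh
    rw [if_pos hP]
  set h := hh ε N D L with hh_def
  have hcast : (h : ℝ) = N.card - F.card := by
    rw [hhe, Nat.cast_sub hPb.le]
  have hh1 : 1 ≤ h := by omega
  have hh1' : (1 : ℝ) ≤ h := by exact_mod_cast hh1
  have hhη : (h : ℝ) < ε ^ 3 / 2 ^ 17 * D := by rw [hcast]; exact hPc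
  obtain ⟨n1, n2, n3⟩ := pre_num ε h0 h1
  have hD : (0 : ℝ) < D := by
    have : (0 : ℝ) < ε ^ 12 * D := lt_of_lt_of_le (by norm_num) hbig
    exact pos_of_mul_pos_right this (by positivity)
  set Y : ℝ := ∑ r ∈ N, ∑ γ ∈ L₀ r, X r γ with hY
  set q : ℝ := 1 - ε ^ 2 / 1024 - dl ε with hq
  have hqpos : 0 < q := by linarith
  have hYq : q * D * h ≤ Y := by
    refine le_trans ?_ hsum
    apply mul_le_mul_of_nonneg_right _ (by positivity)
    nlinarith
  have hYpos : 0 < Y := lt_of_lt_of_le (by positivity) hYq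
  set s : ℝ := h * D / Y with hs
  have hspos : 0 < s := by positivity
  have hsq : s * q ≤ 1 := by
    rw [hs, div_mul_eq_mul_div, div_le_one hYpos]
    nlinarith
  have hsc : s ≤ 1 + ε / 4 := by
    by_contra hcon
    push Not at hcon
    have := mul_lt_mul_of_pos_right hcon hqpos
    linarith
  have hs2 : s ≤ 2 := by linarith
  have hXnn : ∀ r γ, 0 ≤ X r γ := by
    intro r γ
    rcases hX r γ with h | h
    · rw [h]
    · linarith [h.1]
  have hXle : ∀ r γ, X r γ ≤ 2 / ε := by
    intro r γ
    rcases hX r γ with h | h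
    · rw [h]; positivity
    · exact h.2
  let y : R → Γ → ℝ := fun r γ => if r ∈ N ∧ γ ∈ L₀ r then s * X r γ / D else 0
  have hy0 : ∀ r γ, 0 ≤ y r γ := by
    intro r γ
    simp only [y]
    split_ifs
    · have := hXnn r γ
      positivity
    · exact le_refl _
  have hrow : ∀ r, r ∈ N → ∑ γ, y r γ = s / D * ∑ γ ∈ L₀ r, X r γ := by
    intro r hr
    rw [Finset.mul_sum, ← Finset.sum_filter_add_sum_filter_not univ (fun γ => γ ∈ L₀ r)]
    have e1 : ∑ γ ∈ univ.filter (fun γ => ¬ γ ∈ L₀ r), y r γ = 0 := by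
      apply Finset.sum_eq_zero
      intro γ hγ
      rw [mem_filter] at hγ
      simp only [y]
      rw [if_neg]
      intro hc
      exact hγ.2 hc.2
    rw [e1, add_zero, Finset.filter_mem_eq_inter, Finset.univ_inter]
    apply Finset.sum_congr rfl
    intro γ hγ
    simp only [y]
    rw [if_pos ⟨hr, hγ⟩]
    ring
  have hrow0 : ∀ r, r ∉ N → ∑ γ, y r γ = 0 := by
    intro r hr
    apply Finset.sum_eq_zero
    intro γ _
    simp only [y]
    rw [if_neg]
    intro hc
    exact hr hc.1
  have hrowle : ∀ r, ∑ γ, y r γ ≤ 1 := by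
    intro r
    by_cases hr : r ∈ N
    · rw [hrow r hr]
      have e1 : ∑ γ ∈ L₀ r, X r γ ≤ h * (2 / ε) := by
        rw [← hL₀c r hr, ← nsmul_eq_mul]
        exact Finset.sum_le_card_nsmul _ _ _ (fun γ _ => hXle r γ)
      calc s / D * ∑ γ ∈ L₀ r, X r γ ≤ s / D * (h * (2 / ε)) :=
            mul_le_mul_of_nonneg_left e1 (by positivity)
        _ ≤ 2 / D * ((ε ^ 3 / 2 ^ 17 * D) * (2 / ε)) := by
            apply mul_le_mul
            · exact div_le_div_of_nonneg_right hs2 hD.le
            · exact mul_le_mul_of_nonneg_right hhη.le (by positivity)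
            · positivity
            · positivity
        _ = 4 * ε ^ 2 / 2 ^ 17 := by
            field_simp
            ring
        _ ≤ 1 := by
            have : ε ^ 2 ≤ 1 := pow_le_one₀ h0.le h1
            rw [div_le_one (by positivity)]
            nlinarith
    · rw [hrow0 r hr]
      exact zero_le_one
  have hcolle : ∀ γ, ∑ r, y r γ ≤ 1 := by
    intro γ
    by_cases hγ : γ ∈ F
    · have : ∑ r, y r γ = 0 := by
        apply Finset.sum_eq_zero
        intro r _
        simp only [y]
        rw [if_neg]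
        rintro ⟨hr, hc⟩
        have := hL₀ r hr hc
        rw [mem_sdiff] at this
        exact this.2 hγ
      rw [this]
      exact zero_le_one
    · have hnn : (nn N L γ : ℝ) ≤ (1 - ε ^ 2 / 64) * D := by
        by_contra hcon
        push Not at hcon
        apply hγ
        rw [hF]
        unfold Full
        rw [if_neg (not_lt.mpr hPa), mem_filter]
        exact ⟨mem_univ _, hcon.le⟩
      have e1 : ∑ r, y r γ ≤ s / D * colS N L X γ := by
        unfold colS
        rw [Finset.mul_sum]
        rw [← Finset.sum_filter_add_sum_filter_not univ (fun r => r ∈ N ∧ γ ∈ L r)]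
        have e2 : ∑ r ∈ univ.filter (fun r => ¬ (r ∈ N ∧ γ ∈ L r)), y r γ = 0 := by
          apply Finset.sum_eq_zero
          intro r hr
          rw [mem_filter] at hr
          simp only [y]
          rw [if_neg]
          rintro ⟨hr1, hc⟩
          have := hL₀ r hr1 hc
          rw [mem_sdiff] at this
          exact hr.2 ⟨hr1, this.1⟩
        rw [e2, add_zero]
        have e3 : univ.filter (fun r => r ∈ N ∧ γ ∈ L r) = N.filter (fun r => γ ∈ L r) := by
          ext r
          simp
        rw [e3]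
        apply Finset.sum_le_sum
        intro r _
        simp only [y]
        split_ifs
        · apply le_of_eq; ring
        · have := hXnn r γ
          positivity
      have e4 : colS N L X γ ≤ (1 - ε ^ 2 / 64 + dl ε) * D := by
        have := (abs_le.mp (hcol γ)).2
        nlinarith
      calc ∑ r, y r γ ≤ s / D * colS N L X γ := e1
        _ ≤ s / D * (q * D) := by
            apply mul_le_mul_of_nonneg_left _ (by positivity)
            exact e4.trans (mul_le_mul_of_nonneg_right n3 hD.le)
        _ = s * q := by field_simp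
        _ ≤ 1 := hsq
  have htot : ∑ r, ∑ γ, y r γ = h := by
    rw [← Finset.sum_filter_add_sum_filter_not univ (fun r => r ∈ N)]
    have e1 : ∑ r ∈ univ.filter (fun r => ¬ r ∈ N), ∑ γ, y r γ = 0 := by
      apply Finset.sum_eq_zero
      intro r hr
      rw [mem_filter] at hr
      exact hrow0 r hr.2
    rw [e1, add_zero, Finset.filter_mem_eq_inter, Finset.univ_inter,
      Finset.sum_congr rfl (fun r hr => hrow r hr), ← Finset.mul_sum, ← hY, hs]
    field_simp
  obtain ⟨p, hp1, hp2, hp3, hp4⟩ := hPART R Γ y h hy0 hrowle hcolle htot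
  refine ⟨y, p, ⟨hp1, hp2, hp3, hp4, hy0, ?_, ?_⟩⟩
  · intro r γ
    simp only [y]
    split_ifs
    · apply div_le_div_of_nonneg_right _ hD.le
      exact mul_le_mul_of_nonneg_right hsc (hXnn r γ)
    · have := hXnn r γ
      positivity
  · intro r γ hγ
    simp only [y]
    rw [if_neg]
    rintro ⟨hr, hc⟩
    apply hγ
    rw [if_pos hr]
    exact hc

end Pool.Agent.Helper21.LQ
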